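import Pool.Agent.W398.SG.StmC

/-!
# Project SG (MP_9a3597_al), part C: the statement `S_LIM`

A compatible system of finite level triangular permutations has a limit.
-/

namespace Pool.Agent.W764.SG.Lim

open Pool.Agent.W37.SG Pool.Agent.W398.SG.C

theorem tri_agree {p : ℕ} {h : Equiv.Perm (ℕ → ZMod p)} (hh : IsTri p h) (n : ℕ)
    (x y : ℕ → ZMod p) (hxy : ∀ j < n, x j = y j) : ∀ j < n, h x j = h y j := by
  intro j hj
  have h1 := hh j x y (fun i hi => hxy i (lt_trans hi hj))
  have h2 := hxy j hj
  have h3 : h x j = (h x j - x j) + x j := by ring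
  rw [h3, h1, h2]
  ring

theorem tri_agree_inv {p : ℕ} {h : Equiv.Perm (ℕ → ZMod p)} (hh : IsTri p h) (n : ℕ)
    (x y : ℕ → ZMod p) (hxy : ∀ j < n, h x j = h y j) : ∀ j < n, x j = y j := by
  intro j
  induction j using Nat.strong_induction_on with
  | _ j ih =>
    intro hj
    have h1 := hh j x y (fun i hi => ih i hi (lt_trans hi hj))
    have h2 := hxy j hj
    have h3 : x j = h x j - (h x j - x j) := by ring
    rw [h3, h1, h2]
    ring

theorem stable {p : ℕ} {h : ℕ → Equiv.Perm (ℕ → ZMod p)}
    (ht : ∀ k, IsTrunc p k (h (k + 1)) (h k)) (x : ℕ → ZMod p) (i : ℕ) :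
    ∀ m, i + 1 ≤ m → h m x i = h (i + 1) x i := by
  intro m hm
  induction m, hm using Nat.le_induction with
  | base => rfl
  | succ m hm ih =>
    have h1 := ht m x i
    have h2 : i < m := by omega
    rw [if_pos h2] at h1
    rw [← h1, ih]

theorem main : S_LIM := by
  intro p h hh ht
  have st := @stable p h ht
  let G : (ℕ → ZMod p) → (ℕ → ZMod p) := fun x i => h (i + 1) x i
  let G' : (ℕ → ZMod p) → (ℕ → ZMod p) := fun y i => (h (i + 1)).symm y i
  have hG : ∀ x i, ∀ j < i + 1, G x j = h (i + 1) x j := by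
    intro x i j hj
    exact (st x j (i + 1) (by omega)).symm
  have left : ∀ x, G' (G x) = x := by
    intro x
    funext i
    have h1 : ∀ j < i + 1, h (i + 1) ((h (i + 1)).symm (G x)) j = h (i + 1) x j := by
      intro j hj
      rw [Equiv.apply_symm_apply]
      exact hG x i j hj
    exact tri_agree_inv (hh (i + 1)).1 (i + 1) _ _ h1 i (by omega)
  have hG' : ∀ y i, ∀ j < i + 1, G' y j = (h (i + 1)).symm y j := by
    intro y i j hj
    have h1 : ∀ l < j + 1, h (j + 1) ((h (j + 1)).symm y) l
        = h (j + 1) ((h (i + 1)).symm y) l := by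
      intro l hl
      rw [Equiv.apply_symm_apply, st _ l (j + 1) (by omega), ← st _ l (i + 1) (by omega),
        Equiv.apply_symm_apply]
    exact tri_agree_inv (hh (j + 1)).1 (j + 1) _ _ h1 j (by omega)
  have right : ∀ y, G (G' y) = y := by
    intro y
    funext i
    have h1 := tri_agree (hh (i + 1)).1 (i + 1) (G' y) ((h (i + 1)).symm y) (hG' y i) i
      (by omega)
    rw [Equiv.apply_symm_apply] at h1
    exact h1
  refine ⟨⟨G, G', left, right⟩, ?_, ?_⟩
  · intro i x y hxy
    exact (hh (i + 1)).1 i x y hxy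
  · intro k x i
    by_cases hik : i < k
    · rw [if_pos hik]
      exact st x i k (by omega)
    · rw [if_neg hik]
      exact (hh k).2 x i (by omega)

end Pool.Agent.W764.SG.Lim
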